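import Mathlib

set_option autoImplicit false

/-!
# H443-7: inhomogeneous Khintchine-Groshev for one form in `k + 2` variables (job 1505)
-/

open MeasureTheory Filter

namespace Pool.Agent.TH443.MJ

namespace TH384

/-- two primitive vectors with positive first coordinate which are proportional are equal -/
theorem prim_eq {m : ℕ} {q q' : Fin (m + 1) → ℤ} (h0 : 0 < q 0) (h0' : 0 < q' 0)
    (hp : ∀ g : ℤ, (∀ j, g ∣ q j) → IsUnit g) (hp' : ∀ g : ℤ, (∀ j, g ∣ q' j) → IsUnit g)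
    (hne : q ≠ q') (a b : ℤ) (hab : ∀ j, a * q j = b * q' j) : a = 0 ∧ b = 0 := by
  by_contra hcon
  have ha : a ≠ 0 := by
    intro ha
    apply hcon
    refine ⟨ha, ?_⟩
    have h1 := hab 0
    rw [ha, zero_mul] at h1
    rcases mul_eq_zero.1 h1.symm with h | h
    · exact h
    · exact absurd h h0'.ne'
  have hg : 0 < Int.gcd a b := Int.gcd_pos_of_ne_zero_left b ha
  obtain ⟨a', b', hcop, ea, eb⟩ := Int.exists_gcd_one hg
  have hg0 : ((Int.gcd a b : ℕ) : ℤ) ≠ 0 := by exact_mod_cast hg.ne'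
  have hab' : ∀ j, a' * q j = b' * q' j := by
    intro j
    have h1 := hab j
    have h2 : ((Int.gcd a b : ℕ) : ℤ) * (a' * q j) = ((Int.gcd a b : ℕ) : ℤ) * (b' * q' j) := by
      calc ((Int.gcd a b : ℕ) : ℤ) * (a' * q j) = (a' * (Int.gcd a b : ℕ)) * q j := by ring
        _ = a * q j := by rw [← ea]
        _ = b * q' j := h1
        _ = (b' * (Int.gcd a b : ℕ)) * q' j := by rw [← eb]
        _ = _ := by ring
    exact mul_left_cancel₀ hg0 h2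
  have hco : IsCoprime a' b' := Int.isCoprime_iff_gcd_eq_one.2 hcop
  have ub : IsUnit b' := hp b' fun j => hco.symm.dvd_of_dvd_mul_left (Dvd.intro _ (hab' j).symm)
  have ua : IsUnit a' := hp' a' fun j => hco.dvd_of_dvd_mul_left (Dvd.intro _ (hab' j))
  apply hne
  rcases Int.isUnit_iff.1 ua with ha1 | ha1 <;> rcases Int.isUnit_iff.1 ub with hb1 | hb1
  · ext j; have := hab' j; rw [ha1, hb1] at this; linarith
  · exfalso; have := hab' 0; rw [ha1, hb1] at this; linarith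
  · exfalso; have := hab' 0; rw [ha1, hb1] at this; linarith
  · ext j; have := hab' j; rw [ha1, hb1] at this; linarith

end TH384

theorem kg_succ
    (h1 : ∀ (m : ℕ) (q : Fin m → ℤ) (_ : q ≠ 0) (θ δ : ℝ) (_ : 0 < δ) (_ : δ ≤ 1 / 2),
      volume {x : Fin m → ℝ | (∀ j, x j ∈ Set.Ico (0 : ℝ) 1) ∧
        ∃ p : ℤ, |∑ j, (q j : ℝ) * x j - p - θ| < δ} = ENNReal.ofReal (2 * δ))
    (h2 : ∀ (m : ℕ) (q q' : Fin m → ℤ)
      (_ : ∀ a b : ℤ, (∀ j, a * q j = b * q' j) → a = 0 ∧ b = 0) (θ θ' δ δ' : ℝ) (_ : 0 < δ)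
      (_ : δ ≤ 1 / 2) (_ : 0 < δ') (_ : δ' ≤ 1 / 2),
      volume {x : Fin m → ℝ | (∀ j, x j ∈ Set.Ico (0 : ℝ) 1) ∧
        (∃ p : ℤ, |∑ j, (q j : ℝ) * x j - p - θ| < δ) ∧
        (∃ p : ℤ, |∑ j, (q' j : ℝ) * x j - p - θ'| < δ')} =
        ENNReal.ofReal (2 * δ) * ENNReal.ofReal (2 * δ'))
    (hbc : ∀ {Ω : Type} [MeasurableSpace Ω] (μ : Measure Ω) [IsProbabilityMeasure μ]
      {ι : Type} [Countable ι] (A : ι → Set Ω) (_ : ∀ i, MeasurableSet (A i))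
      (_ : ∀ i j, i ≠ j → μ (A i ∩ A j) = μ (A i) * μ (A j))
      (_ : ∑' i, μ (A i) = ⊤), ∀ᵐ ω ∂μ, {i | ω ∈ A i}.Infinite)
    (hp : ∀ (k : ℕ) (Φ : ℕ → ℝ) (_ : ∀ n, 0 < Φ n) (_ : Antitone Φ)
      (_ : ¬ Summable (fun n : ℕ => (n : ℝ) ^ (k + 2) * Φ n)),
      ¬ Summable (fun q : {q : Fin (k + 2) → ℤ // 0 < q 0 ∧ (∀ j, |q j| ≤ q 0) ∧
          ∀ g : ℤ, (∀ j, g ∣ q j) → IsUnit g} =>
        min ((q.1 0 : ℝ) * Φ (q.1 0).toNat) (1 / 2)))
    (k : ℕ) (θ : ℝ) (Φ : ℕ → ℝ) (h0 : ∀ n, 0 < Φ n) (hm : Antitone Φ)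
    (hdiv : ¬ Summable (fun n : ℕ => (n : ℝ) ^ (k + 2) * Φ n)) :
    ∀ᵐ x : Fin (k + 2) → ℝ ∂(volume.restrict (Set.Icc 0 1)),
      {i : (Fin (k + 2) → ℤ) × ℤ | 0 < i.1 0 ∧ (∀ j, |i.1 j| ≤ i.1 0) ∧
        |∑ j, (i.1 j : ℝ) * x j - i.2 - θ| < (i.1 0 : ℝ) * Φ (i.1 0).toNat}.Infinite := by
  have hns := hp k Φ h0 hm hdiv
  set ι : Type := {q : Fin (k + 2) → ℤ // 0 < q 0 ∧ (∀ j, |q j| ≤ q 0) ∧
          ∀ g : ℤ, (∀ j, g ∣ q j) → IsUnit g} with hι
  set r : ι → ℝ := fun q => min ((q.1 0 : ℝ) * Φ (q.1 0).toNat) (1 / 2) with hr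
  have hr0 : ∀ q : ι, 0 < r q := by
    intro q
    have h3 : (0 : ℝ) < q.1 0 := by exact_mod_cast q.2.1
    exact lt_min (mul_pos h3 (h0 _)) (by norm_num)
  have hr1 : ∀ q : ι, r q ≤ 1 / 2 := fun q => min_le_right _ _
  set cube : Set (Fin (k + 2) → ℝ) := {x | ∀ j, x j ∈ Set.Ico (0 : ℝ) 1} with hcube
  have hcpi : cube = Set.univ.pi fun _ : Fin (k + 2) => Set.Ico (0 : ℝ) 1 := by
    ext x; simp [hcube]
  have hcm : MeasurableSet cube := by
    rw [hcpi]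
    exact MeasurableSet.univ_pi fun _ => measurableSet_Ico
  have hcv : volume cube = 1 := by
    rw [hcpi, volume_pi_pi]
    simp
  set μ : Measure (Fin (k + 2) → ℝ) := volume.restrict cube with hμ
  have : IsProbabilityMeasure μ := ⟨by rw [hμ, Measure.restrict_apply_univ, hcv]⟩
  set A : ι → Set (Fin (k + 2) → ℝ) := fun q =>
    {x | ∃ p : ℤ, |∑ j, (q.1 j : ℝ) * x j - p - θ| < r q} with hA
  have hAm : ∀ q, MeasurableSet (A q) := by
    intro q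
    have e : A q = ⋃ p : ℤ, {x | |∑ j, (q.1 j : ℝ) * x j - p - θ| < r q} := by
      ext x; simp [hA]
    rw [e]
    refine MeasurableSet.iUnion fun p => ?_
    refine (isOpen_lt ?_ continuous_const).measurableSet
    fun_prop
  have hμA : ∀ q, μ (A q) = ENNReal.ofReal (2 * r q) := by
    intro q
    rw [hμ, Measure.restrict_apply (hAm q)]
    have hq : q.1 ≠ 0 := by
      intro h
      have h3 := q.2.1
      rw [h] at h3
      exact lt_irrefl _ h3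
    rw [← h1 (k + 2) q.1 hq θ (r q) (hr0 q) (hr1 q)]
    congr 1
    ext x
    exact and_comm
  have hind : ∀ q q' : ι, q ≠ q' → μ (A q ∩ A q') = μ (A q) * μ (A q') := by
    intro q q' hqq
    rw [hμA, hμA, hμ, Measure.restrict_apply ((hAm q).inter (hAm q'))]
    have hne : q.1 ≠ q'.1 := fun h => hqq (Subtype.ext h)
    rw [← h2 (k + 2) q.1 q'.1 (TH384.prim_eq q.2.1 q'.2.1 q.2.2.2 q'.2.2.2 hne) θ θ (r q) (r q')
      (hr0 q) (hr1 q) (hr0 q') (hr1 q')]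
    congr 1
    ext x
    constructor
    · rintro ⟨⟨h3, h4⟩, h5⟩
      exact ⟨h5, h3, h4⟩
    · rintro ⟨h5, h3, h4⟩
      exact ⟨⟨h3, h4⟩, h5⟩
  have hsum : ∑' q, μ (A q) = ⊤ := by
    by_contra hcon
    apply hns
    have h3 := ENNReal.summable_toReal hcon
    have h4 : (fun q => (μ (A q)).toReal) = fun q => 2 * r q := by
      ext q
      rw [hμA, ENNReal.toReal_ofReal (by have := hr0 q; positivity)]
    rw [h4] at h3
    have h5 := h3.mul_left (1 / 2)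
    refine h5.congr fun q => ?_
    show 1 / 2 * (2 * r q) = r q
    ring
  have hmain := hbc μ A hAm hind hsum
  have hae : (volume.restrict (Set.Icc 0 1) : Measure (Fin (k + 2) → ℝ)) = μ := by
    rw [hμ, hcpi]
    refine (Measure.restrict_congr_set ?_).symm
    exact Measure.univ_pi_Ico_ae_eq_Icc (μ := fun _ : Fin (k + 2) => (volume : Measure ℝ))
      (f := 0) (g := 1)
  rw [hae]
  filter_upwards [hmain] with x hx
  intro hfin
  apply hx
  have h3 : (Prod.fst '' {i : (Fin (k + 2) → ℤ) × ℤ | 0 < i.1 0 ∧ (∀ j, |i.1 j| ≤ i.1 0) ∧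
        |∑ j, (i.1 j : ℝ) * x j - i.2 - θ| < (i.1 0 : ℝ) * Φ (i.1 0).toNat}).Finite := hfin.image _
  refine Set.Finite.of_finite_image (f := fun q : ι => q.1) (h3.subset ?_)
    (Subtype.val_injective.injOn)
  rintro _ ⟨q, hq, rfl⟩
  obtain ⟨p, hpp⟩ := hq
  exact ⟨(q.1, p), ⟨q.2.1, q.2.2.1, hpp.trans_le (min_le_left _ _)⟩, rfl⟩

end Pool.Agent.TH443.MJ
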